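import Pool.Agent.H655.CM.Coding
import Pool.Agent.H655.SB.Conn
import Pool.Agent.H655.TM.Red

/-!
MP_fcca75_lc, Q1: homeomorphism of connected topological `n`-manifolds is Borel reducible to
homeomorphism of connected topological `(n+1)`-manifolds, for every `n ≥ 1`.
-/

set_option autoImplicit false

open Set Filter Topology

namespace Pool.Agent.Results.MP_fcca75_lc.TopMonotone

open Pool.Agent.H655.CM

/-- The space of codes of connected topological `n`-manifolds: a code is a sequence of open subsets
`V i i` of `ℝⁿ` together with continuous gluing maps `φ i j` from the open subset `V i j` of `V i i`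
onto the open subset `V j i` of `V j j`, satisfying the cocycle conditions and the Hausdorff
condition; `c.Pts` is the manifold glued from these data, and it has to be connected. -/
def ConnCode (n : ℕ) : Type :=
  {c : Code (EuclideanSpace ℝ (Fin n)) // ConnectedSpace c.Pts}

/-- The Borel structure of the space of codes: it is generated by the conditions `S ⊆ V i j`, for `S`
compact, and `φ i j x ∈ B`, for `x` a point and `B` a Borel set. -/
noncomputable instance connBorel (n : ℕ) : MeasurableSpace (ConnCode n) :=
  MeasurableSpace.comap Subtype.val (measC : MeasurableSpace (Code (EuclideanSpace ℝ (Fin n))))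

/-- The coded manifold. -/
abbrev Coded (n : ℕ) (c : ConnCode n) : Type := Code.Pts c.1

/-- The coded manifolds are homeomorphic. -/
def Homeomorphic (n : ℕ) (c c' : ConnCode n) : Prop :=
  Nonempty (Coded n c ≃ₜ Coded n c')

/-- The coded space is a connected Hausdorff second countable topological `n`-manifold. -/
def GluesToManifold (n : ℕ) (c : ConnCode n) : Prop :=
  T2Space (Coded n c) ∧ SecondCountableTopology (Coded n c) ∧ ConnectedSpace (Coded n c) ∧
    Nonempty (ChartedSpace (EuclideanSpace ℝ (Fin n)) (Coded n c))

/-- The space `N` is homeomorphic to a coded manifold. -/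
def HasCode (n : ℕ) (N : Type) [TopologicalSpace N] : Prop :=
  ∃ c : ConnCode n, Nonempty (N ≃ₜ Coded n c)

/-- Borel reducibility of the relation `R` on `X` to the relation `S` on `Y`. -/
def BorelReducible {X Y : Type} [MeasurableSpace X] [MeasurableSpace Y] (R : X → X → Prop)
    (S : Y → Y → Prop) : Prop :=
  ∃ F : X → Y, Measurable F ∧ ∀ x x', R x x' ↔ S (F x) (F x')

/-- For every `n`: the space of codes of connected topological `n`-manifolds is a standard Borel
space, every code glues to a connected Hausdorff second countable topological `n`-manifold, and every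
connected Hausdorff second countable topological `n`-manifold is homeomorphic to a coded one.
Homeomorphism of connected topological `n`-manifolds is Borel reducible to homeomorphism of connected
topological `(n+1)`-manifolds, for every `n ≥ 1`. In fact homeomorphism of connected topological
`n`-manifolds is Borel reducible to homeomorphism of connected topological `m`-manifolds, for all `n`
and all `m ≥ 2`. -/
theorem result :
    (∀ n : ℕ, StandardBorelSpace (ConnCode n)) ∧
    (∀ (n : ℕ) (c : ConnCode n), GluesToManifold n c) ∧
    (∀ (n : ℕ) (N : Type) [TopologicalSpace N] [ChartedSpace (EuclideanSpace ℝ (Fin n)) N]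
      [T2Space N] [SecondCountableTopology N] [ConnectedSpace N], HasCode n N) ∧
    (∀ n : ℕ, 1 ≤ n → BorelReducible (Homeomorphic n) (Homeomorphic (n + 1))) ∧
    (∀ n m : ℕ, 2 ≤ m → BorelReducible (Homeomorphic n) (Homeomorphic m)) := by
  have key : ∀ n m : ℕ, 2 ≤ m → BorelReducible (Homeomorphic n) (Homeomorphic m) := by
    intro n m hm
    obtain ⟨F, hF, hc, hi⟩ := Pool.Agent.H655.TM.reduction
      (E₁ := EuclideanSpace ℝ (Fin n)) (E := EuclideanSpace ℝ (Fin m))
      { e0 := EuclideanSpace.single ⟨0, by omega⟩ 1
        e1 := EuclideanSpace.single ⟨1, by omega⟩ 1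
        h0 := by simp
        h1 := by simp
        h01 := by simp [EuclideanSpace.inner_single_left] }
    refine ⟨fun c => ⟨F c.1, hc c.1⟩, ?_, fun c c' => hi c.1 c'.1⟩
    rintro A ⟨B, hB, rfl⟩
    exact ⟨F ⁻¹' B, hF hB, rfl⟩
  refine ⟨fun n => Pool.Agent.H655.SB.sb_conn,
    fun n c => ⟨inferInstance, inferInstance, c.2, ⟨inferInstance⟩⟩, ?_,
    fun n hn => key n (n + 1) (by omega), key⟩
  intro n N _ _ _ _ _
  obtain ⟨c, ⟨f⟩⟩ := exists_code (E := EuclideanSpace ℝ (Fin n)) (N := N)
  have hc : ConnectedSpace c.Pts := f.surjective.connectedSpace f.continuous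
  exact ⟨⟨c, hc⟩, ⟨f⟩⟩

end Pool.Agent.Results.MP_fcca75_lc.TopMonotone
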